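import Pool.Agent.N299.DT.Stm

/-!
Project DT (helper299), task B1: a full square zero element gives a block.
-/

set_option autoImplicit false

noncomputable section

namespace Pool.Agent.N388.DT

open Pool.Agent.N299 Pool.Agent.N299.DT

variable {E : Type} [CStarAlgebra E]

/-- `‖x‖² - x* x ≥ 0` -/
lemma pos_norm (x : E) {M : ℝ} (h : ‖x‖ ^ 2 ≤ M) : Pos ((M : ℂ) • (1 : E) - star x * x) := by
  let _ : PartialOrder E := CStarAlgebra.spectralOrder E
  let _ : StarOrderedRing E := CStarAlgebra.spectralOrderedRing E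
  rw [pos_iff, sub_nonneg, real_smul_eq, ← Algebra.algebraMap_eq_smul_one]
  exact CStarAlgebra.star_mul_le_algebraMap_norm_sq.trans (algebraMap_mono E h)

/-- `(∑ u)* (∑ u) ≤ n ∑ u* u` -/
lemma pos_sum {n : ℕ} (u : Fin n → E) :
    Pos (((n : ℝ) : ℂ) • (∑ i, star (u i) * u i) - star (∑ i, u i) * ∑ i, u i) := by
  have h : (((n : ℝ) : ℂ) • (∑ i, star (u i) * u i) - star (∑ i, u i) * ∑ i, u i)
      = (((1 / 2 : ℝ)) : ℂ) • ∑ i, ∑ j, star (u i - u j) * (u i - u j) := by
    have h1 : ∑ i, ∑ j, star (u i - u j) * (u i - u j)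
        = (2 : ℂ) • (((n : ℝ) : ℂ) • (∑ i, star (u i) * u i) - star (∑ i, u i) * ∑ i, u i) := by
      have h2 : ∀ i j : Fin n, star (u i - u j) * (u i - u j)
          = (star (u i) * u i + star (u j) * u j) - (star (u i) * u j + star (u j) * u i) := by
        intro i j
        rw [star_sub]
        noncomm_ring
      simp only [h2, Finset.sum_sub_distrib, Finset.sum_add_distrib, Finset.sum_const,
        Finset.card_univ, Fintype.card_fin]
      have h3 : ∑ i, ∑ j, star (u i) * u j = star (∑ i, u i) * ∑ i, u i := by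
        rw [star_sum, Finset.sum_mul_sum]
      have h4 : ∑ i, ∑ j, star (u j) * u i = star (∑ i, u i) * ∑ i, u i := by
        rw [Finset.sum_comm, star_sum, Finset.sum_mul_sum]
      rw [h3, h4, ← Finset.smul_sum, Complex.ofReal_natCast, smul_sub, ← Nat.cast_smul_eq_nsmul ℂ]
      module
    rw [h1, smul_smul]
    norm_num
  rw [h]
  refine Pos.smul ?_ (by norm_num)
  exact Pos.sum _ _ fun i _ => Pos.sum _ _ fun j _ => pos_star_mul _

lemma Pos.le_trans' {x y w : E} (h1 : Pos (y - x)) (h2 : Pos (w - y)) : Pos (w - x) := by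
  have := h2.add h1
  rwa [sub_add_sub_cancel] at this

/-- step (1) -/
lemma lower {n : ℕ} {z : E} {α β : Fin n → E} (h : ∑ i, α i * z * β i = 1)
    (h1 : (1 : E) ≠ 0) :
    ∃ γ : ℝ, 0 < γ ∧ Pos (∑ i, star (β i) * (star z * z) * β i - (γ : ℂ) • (1 : E)) := by
  have hn : 0 < n := by
    rcases Nat.eq_zero_or_pos n with h0 | h0
    · subst h0
      simp at h
      exact absurd h.symm h1
    · exact h0
  obtain ⟨M, hM⟩ : ∃ M : ℝ, M = 1 + ∑ i, ‖α i‖ ^ 2 := ⟨_, rfl⟩
  have hMi : ∀ i, ‖α i‖ ^ 2 ≤ M := by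
    intro i
    have := Finset.single_le_sum (f := fun i => ‖α i‖ ^ 2) (fun i _ => by positivity)
      (Finset.mem_univ i)
    linarith
  have hM0 : 0 < M := by
    have : 0 ≤ ∑ i, ‖α i‖ ^ 2 := Finset.sum_nonneg fun i _ => by positivity
    linarith
  have hnR : (0 : ℝ) < n := by exact_mod_cast hn
  have h2 := pos_sum fun i => α i * (z * β i)
  have h3 : ∑ i, α i * (z * β i) = 1 := by
    rw [← h]
    exact Finset.sum_congr rfl fun i _ => by rw [mul_assoc]
  rw [h3, star_one, one_mul] at h2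
  have h4 : Pos ((M : ℂ) • (∑ i, star (β i) * (star z * z) * β i)
      - ∑ i, star (α i * (z * β i)) * (α i * (z * β i))) := by
    rw [Finset.smul_sum, ← Finset.sum_sub_distrib]
    refine Pos.sum _ _ fun i _ => ?_
    have h5 := (pos_norm (α i) (hMi i)).conj (z * β i)
    have h6 : star (z * β i) * ((M : ℂ) • (1 : E) - star (α i) * α i) * (z * β i)
        = (M : ℂ) • (star (β i) * (star z * z) * β i)
          - star (α i * (z * β i)) * (α i * (z * β i)) := by
      rw [mul_sub, sub_mul, mul_smul_comm, mul_one, smul_mul_assoc, star_mul, star_mul, star_mul]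
      simp only [mul_assoc]
    rwa [h6] at h5
  have h7 : Pos (((n : ℝ) : ℂ) • ((M : ℂ) • (∑ i, star (β i) * (star z * z) * β i)) - (1 : E)) := by
    refine Pos.le_trans' h2 ?_
    rw [← smul_sub]
    exact h4.smul hnR.le
  refine ⟨1 / (n * M), by positivity, ?_⟩
  have h8 := h7.smul (r := 1 / (n * M)) (by positivity)
  rw [smul_sub, smul_smul, smul_smul] at h8
  have h9 : ((1 / (n * M) : ℝ) : ℂ) * ((n : ℝ) : ℂ) * (M : ℂ) = 1 := by
    rw [mul_assoc, ← Complex.ofReal_mul, ← Complex.ofReal_mul]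
    rw [one_div_mul_cancel (by positivity), Complex.ofReal_one]
  rwa [h9, one_smul] at h8

/-- an invertible positive element can be normalised, by a function of it -/
lemma exists_inv' {x : E} {r : ℝ} (hr : 0 < r) (h : Pos (x - (r : ℂ) • (1 : E))) :
    ∃ R : E, star R = R ∧ R * x * R = 1 ∧ ∀ y, Commute y x → Commute y R := by
  let _ : PartialOrder E := CStarAlgebra.spectralOrder E
  let _ : StarOrderedRing E := CStarAlgebra.spectralOrderedRing E
  have hsa : IsSelfAdjoint x := by
    have h1 := h.sa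
    rw [star_sub, star_smul, star_one, RCLike.star_def, Complex.conj_ofReal] at h1
    exact sub_left_injective h1
  rw [pos_iff, sub_nonneg, real_smul_eq, ← Algebra.algebraMap_eq_smul_one,
    algebraMap_le_iff_le_spectrum hsa] at h
  have hcont : ContinuousOn (fun t : ℝ => (Real.sqrt t)⁻¹) (spectrum ℝ x) := by
    refine ContinuousOn.inv₀ (by fun_prop) fun t ht => ?_
    have := h t ht
    exact (Real.sqrt_pos.2 (by linarith)).ne'
  refine ⟨cfc (fun t : ℝ => (Real.sqrt t)⁻¹) x, cfc_sa _ _, ?_, fun y hy =>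
    (hsa.commute_cfc hy.symm _).symm⟩
  nth_rewrite 2 [← cfc_id' ℝ x]
  rw [← cfc_mul (R := ℝ) _ _ x hcont (by fun_prop), ← cfc_mul (R := ℝ)
    (fun t : ℝ => (Real.sqrt t)⁻¹ * t) (fun t : ℝ => (Real.sqrt t)⁻¹) x
    (hcont.mul (by fun_prop)) hcont, ← cfc_one ℝ x]
  refine cfc_congr fun t ht => ?_
  have h0 : 0 < t := by linarith [h t ht]
  have h1 : Real.sqrt t ≠ 0 := (Real.sqrt_pos.2 h0).ne'
  have h2 : Real.sqrt t * Real.sqrt t = t := Real.mul_self_sqrt h0.le
  simp only [Pi.one_apply]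
  field_simp
  nlinarith

/-- the functions of `a = z* z` -/
structure Fn (z : E) (τ : ℝ) (p k C₀ f : E) : Prop where
  ksa : star k = k
  Csa : star C₀ = C₀
  fsa : star f = f
  kk : k * k = p
  ap : Pos ((τ : ℂ) • (1 : E) - (star z * z - p))
  Ck : C₀ * k = k
  Cle : Pos (1 - C₀ * C₀)
  faf : f * (star z * z) * f = C₀ * C₀
  Cz : C₀ * z = 0
  fz : f * z = 0
  cp : ∀ y, Commute y (star z * z) → Commute y p
  ck : ∀ y, Commute y (star z * z) → Commute y k
  cC : ∀ y, Commute y (star z * z) → Commute y C₀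
  cf : ∀ y, Commute y (star z * z) → Commute y f

lemma exists_fn (z : E) (hz : z * z = 0) {τ : ℝ} (hτ : 0 < τ) :
    ∃ p k C₀ f : E, Fn z τ p k C₀ f := by
  let _ : PartialOrder E := CStarAlgebra.spectralOrder E
  let _ : StarOrderedRing E := CStarAlgebra.spectralOrderedRing E
  obtain ⟨a, ha⟩ : ∃ a : E, a = star z * z := ⟨_, rfl⟩
  have hsa : IsSelfAdjoint a := by rw [ha]; exact IsSelfAdjoint.star_mul_self z
  have hnn : ∀ t ∈ spectrum ℝ a, 0 ≤ t := fun t ht =>
    spectrum_nonneg_of_nonneg (by rw [ha]; exact star_mul_self_nonneg z) ht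
  have haz : a * z = 0 := by rw [ha, mul_assoc, hz, mul_zero]
  have hmax : ∀ t : ℝ, max t τ ≠ 0 := fun t => (lt_max_of_lt_right hτ).ne'
  have hmax' : ∀ t : ℝ, 0 < max t τ := fun t => lt_max_of_lt_right hτ
  have c1 : Continuous (fun t : ℝ => max (t - τ) 0) := by fun_prop
  have c2 : Continuous (fun t : ℝ => Real.sqrt (max (t - τ) 0)) := by fun_prop
  have c3 : Continuous (fun t : ℝ => t / max t τ) := by
    exact continuous_id.div (by fun_prop) hmax
  have c4 : Continuous (fun t : ℝ => Real.sqrt (max t 0) / max t τ) := by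
    exact Continuous.div (by fun_prop) (by fun_prop) hmax
  have c5 : Continuous (fun t : ℝ => 1 / max t τ) := by
    exact continuous_const.div (by fun_prop) hmax
  have c6 : Continuous (fun t : ℝ => 1 / (max t τ * max t τ)) := by
    exact continuous_const.div (by fun_prop) fun t => mul_ne_zero (hmax t) (hmax t)
  refine ⟨cfc (fun t : ℝ => max (t - τ) 0) a, cfc (fun t : ℝ => Real.sqrt (max (t - τ) 0)) a,
    cfc (fun t : ℝ => t / max t τ) a, cfc (fun t : ℝ => Real.sqrt (max t 0) / max t τ) a, ?_⟩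
  have hcom : ∀ g : ℝ → ℝ, ∀ y, Commute y a → Commute y (cfc g a) := fun g y hy =>
    (hsa.commute_cfc hy.symm _).symm
  refine ⟨cfc_sa _ _, cfc_sa _ _, cfc_sa _ _, ?_, ?_, ?_, ?_, ?_, ?_, ?_,
    by rw [← ha]; exact hcom _, by rw [← ha]; exact hcom _, by rw [← ha]; exact hcom _,
    by rw [← ha]; exact hcom _⟩
  · rw [← cfc_mul (R := ℝ) _ _ a c2.continuousOn c2.continuousOn]
    refine cfc_congr fun t ht => ?_
    exact Real.mul_self_sqrt (le_max_right _ _)
  · rw [← ha, pos_iff, real_smul_eq, ← Algebra.algebraMap_eq_smul_one, sub_nonneg]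
    nth_rewrite 1 [← cfc_id' ℝ a]
    rw [← cfc_sub (R := ℝ) _ _ a (by fun_prop) c1.continuousOn]
    refine cfc_le_algebraMap _ _ _ (fun t ht => ?_) (by fun_prop) hsa
    have := le_max_left (t - τ) 0
    linarith
  · rw [← cfc_mul (R := ℝ) _ _ a c3.continuousOn c2.continuousOn]
    refine cfc_congr fun t ht => ?_
    rcases le_total t τ with h | h
    · rw [max_eq_right (sub_nonpos.2 h), Real.sqrt_zero, mul_zero]
    · rw [max_eq_left h, div_self (by linarith), one_mul]
  · rw [pos_iff, ← cfc_mul (R := ℝ) _ _ a c3.continuousOn c3.continuousOn]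
    rw [sub_nonneg]
    refine cfc_le_one _ _ fun t ht => ?_
    have h0 := hnn t ht
    have h1 : t / max t τ ≤ 1 := (div_le_one (hmax' t)).2 (le_max_left _ _)
    have h2 : 0 ≤ t / max t τ := div_nonneg h0 (hmax' t).le
    exact mul_le_one₀ h1 h2 h1
  · rw [← ha]
    nth_rewrite 2 [← cfc_id' ℝ a]
    rw [← cfc_mul (R := ℝ) _ _ a c4.continuousOn (by fun_prop),
      ← cfc_mul (R := ℝ) (fun t : ℝ => Real.sqrt (max t 0) / max t τ * t) _ a
        (c4.mul continuous_id).continuousOn c4.continuousOn,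
      ← cfc_mul (R := ℝ) _ _ a c3.continuousOn c3.continuousOn]
    refine cfc_congr fun t ht => ?_
    have h0 := hnn t ht
    have h1 := Real.mul_self_sqrt h0
    rw [max_eq_left h0]
    have : Real.sqrt t / max t τ * t * (Real.sqrt t / max t τ)
        = (Real.sqrt t * Real.sqrt t) * t / (max t τ * max t τ) := by ring
    rw [this, h1]
    ring
  · have h1 : cfc (fun t : ℝ => t / max t τ) a = cfc (fun t : ℝ => 1 / max t τ) a * a := by
      nth_rewrite 3 [← cfc_id' ℝ a]
      rw [← cfc_mul (R := ℝ) _ _ a c5.continuousOn (by fun_prop)]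
      refine cfc_congr fun t ht => ?_
      ring
    rw [h1, mul_assoc, haz, mul_zero]
  · have h1 : cfc (fun t : ℝ => Real.sqrt (max t 0) / max t τ) a
        * cfc (fun t : ℝ => Real.sqrt (max t 0) / max t τ) a
        = cfc (fun t : ℝ => 1 / (max t τ * max t τ)) a * a := by
      nth_rewrite 4 [← cfc_id' ℝ a]
      rw [← cfc_mul (R := ℝ) _ _ a c4.continuousOn c4.continuousOn,
        ← cfc_mul (R := ℝ) _ _ a c6.continuousOn (by fun_prop)]
      refine cfc_congr fun t ht => ?_
      have h0 := hnn t ht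
      have h1 := Real.mul_self_sqrt h0
      rw [max_eq_left h0]
      have : Real.sqrt t / max t τ * (Real.sqrt t / max t τ)
        = (Real.sqrt t * Real.sqrt t) / (max t τ * max t τ) := by ring
      rw [this, h1]
      ring
    rw [← CStarRing.star_mul_self_eq_zero_iff, star_mul, cfc_sa, mul_assoc, ← mul_assoc _ _ z,
      h1, mul_assoc, haz, mul_zero, mul_zero]

theorem t_B1 : S_B1 := by
  intro n E _ V hV
  by_cases h1 : (1 : E) = 0
  · have hs : ∀ x y : E, x = y := by
      intro x y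
      rw [← one_mul x, ← one_mul y, h1, zero_mul, zero_mul]
    exact ⟨fun _ => 0, 0, fun _ => 0, ⟨hs _ _, fun _ => hs _ _, fun _ _ _ => hs _ _,
      ⟨0, hs _ _⟩, hs _ _, hs _ _, hs _ _⟩, fun x _ i => ⟨hs _ _, hs _ _⟩⟩
  obtain ⟨z, hz⟩ : ∃ z, z = V (.inl ()) := ⟨_, rfl⟩
  obtain ⟨β, hβ⟩ : ∃ β : Fin n → E, β = fun i => V (.inr (true, i)) := ⟨_, rfl⟩
  have hzz : z * z = 0 := by rw [hz]; exact hV.sq
  obtain ⟨γ, hγ, hlow⟩ := lower (z := z) (α := fun i => V (.inr (false, i))) (β := β)
    (by rw [hz, hβ]; exact hV.full) h1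
  obtain ⟨L, hL⟩ : ∃ L : ℝ, L = 1 + ∑ i, ‖β i‖ ^ 2 := ⟨_, rfl⟩
  have hL0 : 0 < L := by
    have : 0 ≤ ∑ i, ‖β i‖ ^ 2 := Finset.sum_nonneg fun i _ => by positivity
    linarith
  have hβL : Pos ((L : ℂ) • (1 : E) - ∑ i, star (β i) * β i) := by
    have h2 : (L : ℂ) • (1 : E) - ∑ i, star (β i) * β i
        = ((1 : ℝ) : ℂ) • (1 : E) + ∑ i, (((‖β i‖ ^ 2 : ℝ) : ℂ) • (1 : E) - star (β i) * β i) := by
      rw [hL, Finset.sum_sub_distrib, ← Finset.sum_smul, Complex.ofReal_add, add_smul,
        Complex.ofReal_sum]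
      abel
    rw [h2]
    refine Pos.add (Pos.smul ?_ zero_le_one) (Pos.sum _ _ fun i _ => pos_norm _ le_rfl)
    exact ⟨1, by simp⟩
  obtain ⟨τ, hτ⟩ : ∃ τ : ℝ, τ = γ / (2 * L) := ⟨_, rfl⟩
  have hτ0 : 0 < τ := by rw [hτ]; positivity
  obtain ⟨p, k, C₀, f, hF⟩ := exists_fn z hzz hτ0
  -- the element b
  have hb : Pos (∑ i, star (β i) * p * β i - ((γ / 2 : ℝ) : ℂ) • (1 : E)) := by
    have h2 : Pos (∑ i, star (β i) * ((τ : ℂ) • (1 : E) - (star z * z - p)) * β i) :=
      Pos.sum _ _ fun i _ => hF.ap.conj (β i)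
    have h3 : Pos ((τ : ℂ) • ((L : ℂ) • (1 : E) - ∑ i, star (β i) * β i)) := hβL.smul hτ0.le
    have h4 := (hlow.add h2).add h3
    have h5 : ((γ / 2 : ℝ) : ℂ) = (γ : ℂ) - (τ : ℂ) * (L : ℂ) := by
      rw [← Complex.ofReal_mul, ← Complex.ofReal_sub, hτ]
      congr 1
      field_simp
      ring
    have h6 : ∑ i, star (β i) * (star z * z) * β i - (γ : ℂ) • (1 : E)
        + ∑ i, star (β i) * ((τ : ℂ) • (1 : E) - (star z * z - p)) * β i
        + (τ : ℂ) • ((L : ℂ) • (1 : E) - ∑ i, star (β i) * β i)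
        = ∑ i, star (β i) * p * β i - ((γ / 2 : ℝ) : ℂ) • (1 : E) := by
      have h7 : ∑ i, star (β i) * ((τ : ℂ) • (1 : E) - (star z * z - p)) * β i
          = (τ : ℂ) • ∑ i, star (β i) * β i - (∑ i, star (β i) * (star z * z) * β i
            - ∑ i, star (β i) * p * β i) := by
        rw [Finset.smul_sum, ← Finset.sum_sub_distrib, ← Finset.sum_sub_distrib]
        refine Finset.sum_congr rfl fun i _ => ?_
        rw [mul_sub, mul_sub, sub_mul, sub_mul, mul_smul_comm, mul_one, smul_mul_assoc]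
      rw [h7, h5, sub_smul, smul_sub, smul_smul]
      abel
    rwa [h6] at h4
  obtain ⟨R, hRs, hR1, hRc⟩ := exists_inv' (by positivity : (0 : ℝ) < γ / 2) hb
  have hzf : star (z * f) * (z * f) = C₀ * C₀ := by
    rw [star_mul, hF.fsa, ← hF.faf]
    simp only [mul_assoc]
  have hCzf : C₀ * (z * f) = 0 := by rw [← mul_assoc, hF.Cz, zero_mul]
  have hzfC : star (z * f) * C₀ = 0 := by
    have := congrArg star hCzf
    rwa [star_mul, hF.Csa, star_zero] at this
  have hsb : SB (0 : Fin 2) ![C₀, star (z * f)] k (fun i : Fin n => β i * R) := by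
    refine ⟨hF.Csa, ?_, ?_, ?_, hF.ksa, hF.Ck, ?_⟩
    · intro i
      fin_cases i
      · simp [hF.Csa]
      · simp only [Fin.mk_one, Matrix.cons_val_one, Matrix.cons_val_zero, star_star]
        exact hzf
    · intro i j hij
      fin_cases i <;> fin_cases j
      · exact absurd rfl hij
      · simp only [Fin.zero_eta, Fin.mk_one, Matrix.cons_val_one, Matrix.cons_val_zero, star_star]
        exact hCzf
      · simp only [Fin.zero_eta, Fin.mk_one, Matrix.cons_val_one, Matrix.cons_val_zero, hF.Csa]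
        exact hzfC
      · exact absurd rfl hij
    · rw [Fin.sum_univ_two]
      simp only [Matrix.cons_val_one, Matrix.cons_val_zero, star_star, hF.Csa]
      obtain ⟨w, hw⟩ : ∃ w, w = z * f := ⟨_, rfl⟩
      rw [← hw] at hzf hCzf hzfC ⊢
      have e1 : 1 - (C₀ * C₀ + w * star w) = star (1 - (C₀ * C₀ + w * star w))
          * (1 - (C₀ * C₀ + w * star w)) + (star C₀ * (1 - C₀ * C₀) * C₀
            + star (star w) * (1 - C₀ * C₀) * star w) := by
        have e2 : star (1 - (C₀ * C₀ + w * star w)) = 1 - (C₀ * C₀ + w * star w) := by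
          rw [star_sub, star_one, star_add, star_mul, star_mul, star_star, hF.Csa]
        rw [e2, star_star, hF.Csa]
        have e3 : (C₀ * C₀ + w * star w) * (C₀ * C₀ + w * star w)
            = C₀ * (C₀ * C₀) * C₀ + w * (C₀ * C₀) * star w := by
          rw [← hzf]
          have e4 : (C₀ * C₀ + w * star w) * (C₀ * C₀ + w * star w)
              = C₀ * (C₀ * C₀) * C₀ + C₀ * (C₀ * w) * star w + w * (star w * C₀) * C₀
                + w * (star w * w) * star w := by noncomm_ring
          rw [hCzf, hzfC, mul_zero, zero_mul, mul_zero, zero_mul] at e4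
          rw [hzf] at e4 ⊢
          rw [e4]
          simp
        have e5 : (1 - (C₀ * C₀ + w * star w)) * (1 - (C₀ * C₀ + w * star w))
            = 1 - (C₀ * C₀ + w * star w) - (C₀ * C₀ + w * star w)
              + (C₀ * C₀ + w * star w) * (C₀ * C₀ + w * star w) := by noncomm_ring
        rw [e5, e3]
        noncomm_ring
      rw [e1]
      exact (pos_star_mul _).add ((hF.Cle.conj C₀).add (hF.Cle.conj (star w)))
    · simp only [star_mul, hRs, hF.kk]
      have e1 : ∀ i, R * star (β i) * p * (β i * R) = R * (star (β i) * p * β i) * R := by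
        intro i
        simp only [mul_assoc]
      simp only [e1, ← Finset.sum_mul, ← Finset.mul_sum]
      exact hR1
  refine ⟨_, k, _, hsb, ?_⟩
  intro x hx
  have hxz : Commute x z := by
    have := (hx (.inl ())).1
    rw [← hz] at this
    exact this
  have hxz' : Commute x (star z) := by
    have := (hx (.inl ())).2
    rw [← hz] at this
    exact this
  have hxβ : ∀ i, Commute x (β i) := by
    intro i
    rw [hβ]
    exact (hx (.inr (true, i))).1
  have hxβ' : ∀ i, Commute x (star (β i)) := by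
    intro i
    rw [hβ]
    exact (hx (.inr (true, i))).2
  have hxa : Commute x (star z * z) := hxz'.mul_right hxz
  have hxk := hF.ck x hxa
  have hxC := hF.cC x hxa
  have hxf := hF.cf x hxa
  have hxp := hF.cp x hxa
  have hxR : Commute x R := by
    refine hRc x ?_
    refine Commute.sum_right _ _ _ fun i _ => ?_
    exact ((hxβ' i).mul_right hxp).mul_right (hxβ i)
  intro i
  rcases i with _ | i | t
  · refine ⟨hxk, ?_⟩
    show x * star k = star k * x
    rw [hF.ksa]
    exact hxk
  · fin_cases i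
    · refine ⟨hxC, ?_⟩
      show x * star C₀ = star C₀ * x
      rw [hF.Csa]
      exact hxC
    · have h2 : Commute x (star (z * f)) := by
        rw [star_mul, hF.fsa]
        exact hxf.mul_right hxz'
      refine ⟨h2, ?_⟩
      show x * star (star (z * f)) = star (star (z * f)) * x
      rw [star_star]
      exact hxz.mul_right hxf
  · refine ⟨(hxβ t).mul_right hxR, ?_⟩
    show x * star (β t * R) = star (β t * R) * x
    rw [star_mul, hRs]
    exact hxR.mul_right (hxβ' t)

end Pool.Agent.N388.DT
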